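import Pool.Agent.helper3.XT.Spec

/-!
# Row QCC: `Q1` implies large ratios
-/

set_option autoImplicit false

namespace Pool.Agent.XT

open Finset SimpleGraph

/-- Row QCC. -/
theorem QCC (hEXF : EXF_stmt) (hCYG : CYG_stmt) (hHOS : HOS_stmt) (hHST : GL.HST_stmt)
    (hSCL : GL.SCL_stmt) : QCC_stmt := by
  rintro ⟨C, hC⟩ hQ
  obtain ⟨C', N', hQ'⟩ := hQ XM YM RM
  set A : ℝ := max C 1 with hA
  set K : ℝ := max 6 C' with hK
  have hA1 : 1 ≤ A := le_max_right _ _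
  have hA0 : 0 < A := lt_of_lt_of_le one_pos hA1
  have hK6 : 6 ≤ K := le_max_left _ _
  have hK0 : 0 < K := by linarith
  refine ⟨1 / (16 * K * A), by positivity, max N' 64, ?_⟩
  intro n hn i
  have hn1 : N' ≤ n := le_trans (le_max_left _ _) hn
  have hn2 : 64 ≤ n := le_trans (le_max_right _ _) hn
  have hn0 : (0 : ℝ) < n := by
    have : (64 : ℝ) ≤ n := by exact_mod_cast hn2
    linarith
  have hp : (0 : ℝ) ≤ (n : ℝ) ^ (17 / 13 : ℝ) := Real.rpow_nonneg hn0.le _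
  have h1 : (exF n V3F F3 : ℝ) ≤ A * (n : ℝ) ^ (17 / 13 : ℝ) := by
    apply hEXF n _ (mul_nonneg hA0.le hp)
    intro G hG
    refine (hC n G hG).trans ?_
    exact mul_le_mul_of_nonneg_right (le_max_left _ _) hp
  obtain ⟨B, hB8, hBM, hBc⟩ := hHOS n hn2
  have hcyc : ∀ (W : Type) (H : SimpleGraph W), H.Free (GL.Gr (fun u v : Fin n => (u, v) ∈ B)) →
      (B.card : ℝ) ≤ K * (extremalNumber n H : ℝ) := by
    intro W H hH
    have h2 : B.card ≤ GL.ex (2 * n) H := by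
      by_contra h3
      exact hH (hHST n B W H (not_le.1 h3))
    have h3 : B.card ≤ 6 * GL.ex n H := h2.trans (hSCL W H n (by omega))
    have h4 : (B.card : ℝ) ≤ 6 * (extremalNumber n H : ℝ) := by exact_mod_cast h3
    refine h4.trans ?_
    exact mul_le_mul_of_nonneg_right hK6 (Nat.cast_nonneg _)
  have h5 : (B.card : ℝ) ≤ K * (extremalNumber n (F3 i) : ℝ) := by
    match i with
    | 0 => exact hcyc (Fin 4) (cycleGraph 4) (hCYG n B hB8).1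
    | 1 => exact hcyc (Fin 6) (cycleGraph 6) (hCYG n B hB8).2
    | 2 =>
      have h6 : (B.card : ℝ) ≤ C' * (extremalNumber n (GL.Gr RM) : ℝ) := hQ' n hn1 B hBM
      refine h6.trans ?_
      exact mul_le_mul_of_nonneg_right (le_max_right _ _) (Nat.cast_nonneg _)
  have h7 : (n : ℝ) ^ (4 / 3 : ℝ) = (n : ℝ) ^ (1 / 39 : ℝ) * (n : ℝ) ^ (17 / 13 : ℝ) := by
    rw [← Real.rpow_add hn0]
    norm_num
  have h8 : (0 : ℝ) ≤ (n : ℝ) ^ (1 / 39 : ℝ) := Real.rpow_nonneg hn0.le _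
  have h9 : (n : ℝ) ^ (1 / 39 : ℝ) * (exF n V3F F3 : ℝ) ≤ A * (n : ℝ) ^ (4 / 3 : ℝ) := by
    rw [h7]
    calc (n : ℝ) ^ (1 / 39 : ℝ) * (exF n V3F F3 : ℝ)
        ≤ (n : ℝ) ^ (1 / 39 : ℝ) * (A * (n : ℝ) ^ (17 / 13 : ℝ)) := mul_le_mul_of_nonneg_left h1 h8
      _ = A * ((n : ℝ) ^ (1 / 39 : ℝ) * (n : ℝ) ^ (17 / 13 : ℝ)) := by ring
  have h10 : (n : ℝ) ^ (4 / 3 : ℝ) ≤ 16 * (K * (extremalNumber n (F3 i) : ℝ)) := by linarith
  have h11 : A * (n : ℝ) ^ (4 / 3 : ℝ) ≤ A * (16 * (K * (extremalNumber n (F3 i) : ℝ))) :=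
    mul_le_mul_of_nonneg_left h10 hA0.le
  calc 1 / (16 * K * A) * (n : ℝ) ^ (1 / 39 : ℝ) * (exF n V3F F3 : ℝ)
      = 1 / (16 * K * A) * ((n : ℝ) ^ (1 / 39 : ℝ) * (exF n V3F F3 : ℝ)) := by ring
    _ ≤ 1 / (16 * K * A) * (A * (16 * (K * (extremalNumber n (F3 i) : ℝ)))) :=
        mul_le_mul_of_nonneg_left (h9.trans h11) (by positivity)
    _ = (extremalNumber n (F3 i) : ℝ) := by
        field_simp

end Pool.Agent.XT
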